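import Pool.Agent.R893.LR.Pow

/-!
# MP_55c352_al: a space-like limit direction which does not arise through powers
-/

namespace Pool.Agent.Results.MP_55c352_al.NotThroughPowers

open Pool.Agent.R893.LR

/-- **The answer is negative**: there is a Lorentzian geometric Coxeter system and a space-like
limit direction which does not arise through powers of any element of infinite order. (The system
is the universal Coxeter system of rank three with all `B_{st} = -1`, and the limit direction is a
simple root.) -/
theorem result : ∃ (n : ℕ) (C : GeomCoxeter n), C.Lorentzian ∧
    ∃ x ∈ C.limitDirections, C.SpaceLike x ∧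
      ∀ w ∈ C.W, ¬ IsOfFinOrder w → ¬ GeomCoxeter.ArisesThroughPowers w x :=
  ⟨3, tri, tri_lorentzian, limPt, ⟨basePt, limPt_mem⟩, limPt_spaceLike,
    fun _ hw hinf => limPt_not_powers hw hinf⟩

end Pool.Agent.Results.MP_55c352_al.NotThroughPowers
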